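import Pool.Agent.H98.S4.Targets

set_option autoImplicit false

namespace Pool.Agent.H99.S4

open Finset Pool.Agent.H98.S4

theorem s4_LE (hEX : T_EX) : T_LE := by
  classical
  intro V β _ _ _ G f hG hB
  let n : β → ℕ := fun b => (univ.filter (fun u => f u = b)).card
  let I : Type := {b : β // ∃ v : V, f v = b}
  let _ : Fintype I := Fintype.ofSurjective
    (fun v : V => (⟨f v, v, rfl⟩ : I)) (by
      rintro ⟨b, v, rfl⟩
      exact ⟨v, rfl⟩)
  let D : Type := Σ b : I, Fin (4 - n b.1)
  let f' : V ⊕ D → β := Sum.elim f (fun d => d.1.1)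
  let G' : SimpleGraph (V ⊕ D) := G.map (Function.Embedding.inl)
  have hG' : Deg2 G' := by
    intro x a b c hxa hxb hxc
    obtain ⟨x1, a1, h1, rfl, rfl⟩ := (SimpleGraph.map_adj _ _ _ _).1 hxa
    obtain ⟨x2, b1, h2, e2, rfl⟩ := (SimpleGraph.map_adj _ _ _ _).1 hxb
    obtain ⟨x3, c1, h3, e3, rfl⟩ := (SimpleGraph.map_adj _ _ _ _).1 hxc
    have e2' : x2 = x1 := Function.Embedding.inl.injective e2
    have e3' : x3 = x1 := Function.Embedding.inl.injective e3
    subst e2'
    subst e3'
    rcases hG _ _ _ _ h1 h2 h3 with h | h | h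
    · exact Or.inl (by rw [h])
    · exact Or.inr (Or.inl (by rw [h]))
    · exact Or.inr (Or.inr (by rw [h]))
  have hfib : ∀ b : I, (univ.filter (fun u : V ⊕ D => f' u = b.1)).card = 4 := by
    intro b
    have hb := hB b.1
    rw [Finset.card_filter, Fintype.sum_sum_type, Fintype.sum_sigma]
    have h1 : (∑ x : V, if f' (Sum.inl x) = b.1 then 1 else 0) = n b.1 := by
      simp only [n, Finset.card_filter]
      rfl
    have h2 : (∑ x : I, ∑ y : Fin (4 - n x.1), if f' (Sum.inr ⟨x, y⟩) = b.1 then 1 else 0)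
        = 4 - n b.1 := by
      rw [Finset.sum_eq_single b]
      · have : ∀ y : Fin (4 - n b.1), (if f' (Sum.inr ⟨b, y⟩) = b.1 then 1 else 0) = 1 := by
          intro y
          exact if_pos rfl
        rw [Finset.sum_congr rfl (fun y _ => this y)]
        simp
      · intro x _ hx
        apply Finset.sum_eq_zero
        intro y _
        exact if_neg (fun h => hx (Subtype.ext h))
      · intro h
        exact absurd (Finset.mem_univ _) h
    rw [h1, h2]
    have : n b.1 ≤ 4 := hb
    omega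
  have hB' : Blk4 f' := by
    rintro (v | d)
    · exact hfib ⟨f v, v, rfl⟩
    · exact hfib d.1
  obtain ⟨c, hc1, hc2⟩ := hEX (V ⊕ D) β G' f' hG' hB'
  refine ⟨fun v => c (Sum.inl v), ?_, ?_⟩
  · intro u v huv
    exact hc1 _ _ ((SimpleGraph.map_adj _ _ _ _).2 ⟨u, v, huv, rfl, rfl⟩)
  · intro u v huv hne
    exact hc2 _ _ huv (fun h => hne (Sum.inl_injective h))

end Pool.Agent.H99.S4
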